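import Pool.Agent.Zk17.HT.E23

/-!
# Project HT, part `S_ELL`: the subpart E2
-/

set_option autoImplicit false
set_option linter.all false

namespace Pool.Agent.Zk17.HT

open Pool.Agent.Zk94.HT WeierstrassCurve Filter Topology

/-- the difference quotient of `(x - a) (x - b) (x - c)` -/
def gq {L : Type} [Field L] (a b c x y : L) : L :=
  x ^ 2 + x * y + y ^ 2 - (a + b + c) * (x + y) + (a * b + b * c + c * a)

/-- the difference of two points -/
theorem diff_pts {L : Type} [Field L] [CharZero L] [DecidableEq L] {a b c : L} (hab : a ≠ b)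
    (hbc : b ≠ c) (hac : a ≠ c) {x₁ y₁ x₂ y₂ : L} (h₁ : (crv a b c).toAffine.Nonsingular x₁ y₁)
    (h₂ : (crv a b c).toAffine.Nonsingular x₂ y₂) (hne : ¬ (x₁ = x₂ ∧ y₁ = y₂)) :
    ∃ l : L, l * (x₁ - x₂) = y₁ + y₂ ∧ l * (y₁ - y₂) = gq a b c x₁ x₂ ∧
      ∃ y h, (Affine.Point.some x₁ y₁ h₁ - Affine.Point.some x₂ y₂ h₂ : (crv a b c).toAffine.Point) =
        .some (l ^ 2 + (a + b + c) - x₁ - x₂) y h := by
  have e1 := (nonsing hab hbc hac).1 h₁
  have e2 := (nonsing hab hbc hac).1 h₂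
  have hxy : ¬ (x₁ = x₂ ∧ y₁ = (crv a b c).toAffine.negY x₂ ((crv a b c).toAffine.negY x₂ y₂)) := by
    rw [Affine.negY_negY]
    exact hne
  have hs : ((crv a b c).toAffine.slope x₁ x₂ y₁ ((crv a b c).toAffine.negY x₂ y₂)) * (x₁ - x₂) =
      y₁ + y₂ ∧ ((crv a b c).toAffine.slope x₁ x₂ y₁ ((crv a b c).toAffine.negY x₂ y₂)) * (y₁ - y₂) =
      gq a b c x₁ x₂ := by
    by_cases hx : x₁ = x₂
    · subst hx
      have hy : y₁ ≠ y₂ := fun h => hne ⟨rfl, h⟩
      have hy2 : y₁ = -y₂ := by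
        rcases sq_eq_sq_iff_eq_or_eq_neg.1 (e1.trans e2.symm) with h | h
        · exact absurd h hy
        · exact h
      have hy0 : y₁ ≠ 0 := by
        rintro rfl
        apply hy
        rw [← neg_eq_zero.1 hy2.symm]
      rw [Affine.slope_of_Y_ne rfl (by
        rw [Affine.negY_negY]
        exact hy), neg_Y]
      have h2 : y₁ - -y₁ ≠ 0 := by
        intro h0
        apply hy0
        have h4 : (2 : L) * y₁ = 0 := by linear_combination h0
        exact (mul_eq_zero.1 h4).resolve_left two_ne_zero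
      constructor
      · rw [sub_self, mul_zero, hy2]
        ring
      · have h3 : y₁ - y₂ = y₁ - -y₁ := by
          rw [hy2]; ring
        rw [h3, div_mul_cancel₀ _ h2]
        simp only [crv, gq]
        ring
    · rw [Affine.slope_of_X_ne hx, neg_Y]
      have h2 : x₁ - x₂ ≠ 0 := sub_ne_zero.2 hx
      constructor
      · rw [div_mul_cancel₀ _ h2]
        ring
      · rw [div_mul_eq_mul_div, div_eq_iff h2]
        simp only [gq]
        linear_combination e1 - e2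
  refine ⟨_, hs.1, hs.2, ?_⟩
  have h3 : (Affine.Point.some x₁ y₁ h₁ - Affine.Point.some x₂ y₂ h₂ : (crv a b c).toAffine.Point) =
      .some _ _ (Affine.nonsingular_add h₁ ((Affine.nonsingular_neg ..).2 h₂) hxy) := by
    rw [sub_eq_add_neg (Affine.Point.some x₁ y₁ h₁), Affine.Point.neg_some, Affine.Point.add_some hxy]
  have h4 := add_X (a := a) (b := b) (c := c) x₁ x₂
    ((crv a b c).toAffine.slope x₁ x₂ y₁ ((crv a b c).toAffine.negY x₂ y₂))
  rw [h3]
  refine ⟨_, h4 ▸ Affine.nonsingular_add h₁ ((Affine.nonsingular_neg ..).2 h₂) hxy, ?_⟩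
  congr 1

/-- large slope -/
theorem norm_slope {L : Type} [NormedField L] [IsUltrametricDist L] {a b c : L} {r : ℝ}
    (hr : max ‖a‖ (max ‖b‖ ‖c‖) < r) {x₁ x₂ l : L} (h1 : ‖x₁‖ < r) (h2 : ‖x₂‖ < r)
    (hl : r ≤ ‖l‖ ^ 2) : r ≤ ‖l ^ 2 + (a + b + c) - x₁ - x₂‖ := by
  have ha : ‖a‖ < r := lt_of_le_of_lt (le_max_left _ _) hr
  have hb : ‖b‖ < r := lt_of_le_of_lt ((le_max_left _ _).trans (le_max_right _ _)) hr
  have hc : ‖c‖ < r := lt_of_le_of_lt ((le_max_right _ _).trans (le_max_right _ _)) hr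
  have hu : ∀ {x y : L}, ‖x‖ < r → ‖y‖ < r → ‖x + y‖ < r := fun h h' =>
    lt_of_le_of_lt (IsUltrametricDist.norm_add_le_max _ _) (max_lt h h')
  have hs : ‖(a + b + c) + (-x₁) + (-x₂)‖ < r :=
    hu (hu (hu (hu ha hb) hc) (by rwa [norm_neg])) (by rwa [norm_neg])
  have e1 : l ^ 2 + (a + b + c) - x₁ - x₂ = l ^ 2 + ((a + b + c) + (-x₁) + (-x₂)) := by ring
  have hl2 : r ≤ ‖l ^ 2‖ := by rwa [norm_pow]
  have h3 : ‖l ^ 2 + ((a + b + c) + (-x₁) + (-x₂))‖ = ‖l ^ 2‖ := by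
    have h4 : ‖(a + b + c) + (-x₁) + (-x₂)‖ < ‖l ^ 2‖ := lt_of_lt_of_le hs hl2
    rw [IsUltrametricDist.norm_add_eq_max_of_norm_ne_norm h4.ne']
    exact max_eq_left h4.le
  rw [e1, h3]
  exact hl2

/-- points near a given point of the curve have a difference near the origin -/
theorem near {L : Type} [NontriviallyNormedField L] [IsUltrametricDist L] [CharZero L] [DecidableEq L]
    {a b c : L} (hab : a ≠ b) (hbc : b ≠ c) (hac : a ≠ c) {r : ℝ}
    (hr : max ‖a‖ (max ‖b‖ ‖c‖) < r) {u v : L} (huv : v ^ 2 = (u - a) * (u - b) * (u - c)) :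
    ∃ δ : ℝ, 0 < δ ∧ ∀ (x₁ y₁ x₂ y₂ : L) (h₁ : (crv a b c).toAffine.Nonsingular x₁ y₁)
      (h₂ : (crv a b c).toAffine.Nonsingular x₂ y₂), ¬ (x₁ = x₂ ∧ y₁ = y₂) → ‖x₁‖ < r → ‖x₂‖ < r →
      ‖x₁ - u‖ < δ → ‖x₂ - u‖ < δ → ‖y₁ - v‖ < δ → ‖y₂ - v‖ < δ →
      Bg r (Affine.Point.some x₁ y₁ h₁ - Affine.Point.some x₂ y₂ h₂ : (crv a b c).toAffine.Point) := by
  have hr0 : 0 < r := lt_of_le_of_lt (le_max_of_le_left (norm_nonneg a)) hr
  set M : ℝ := r + 1 with hM
  have hM0 : 0 < M := by linarith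
  have hMr : r ≤ M ^ 2 := by rw [hM]; nlinarith
  have h2 : (2 : L) ≠ 0 := two_ne_zero
  have hsub : ∀ {x y z : L} {δ : ℝ}, ‖x - z‖ < δ → ‖y - z‖ < δ → ‖x - y‖ < δ := by
    intro x y z δ h h'
    have : x - y = (x - z) + -(y - z) := by ring
    rw [this]
    exact lt_of_le_of_lt (IsUltrametricDist.norm_add_le_max _ _) (max_lt h (by rwa [norm_neg]))
  -- a lower bound for the slope suffices
  have fin : ∀ (x₁ y₁ x₂ y₂ : L) (h₁ : (crv a b c).toAffine.Nonsingular x₁ y₁)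
      (h₂ : (crv a b c).toAffine.Nonsingular x₂ y₂), ¬ (x₁ = x₂ ∧ y₁ = y₂) → ‖x₁‖ < r → ‖x₂‖ < r →
      (∀ l : L, l * (x₁ - x₂) = y₁ + y₂ → l * (y₁ - y₂) = gq a b c x₁ x₂ → M ≤ ‖l‖) →
      Bg r (Affine.Point.some x₁ y₁ h₁ - Affine.Point.some x₂ y₂ h₂ : (crv a b c).toAffine.Point) := by
    intro x₁ y₁ x₂ y₂ h₁ h₂ hne hx₁ hx₂ hl
    obtain ⟨l, e1, e2, y, h, e3⟩ := diff_pts hab hbc hac h₁ h₂ hne
    rw [e3]
    show r ≤ _
    refine norm_slope hr hx₁ hx₂ (hMr.trans ?_)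
    exact pow_le_pow_left₀ hM0.le (hl l e1 e2) 2
  by_cases hv : v = 0
  · -- a point of order two
    subst hv
    have hd : gq a b c u u ≠ 0 := by
      have h3 : (u - a) * (u - b) * (u - c) = 0 := by rw [← huv]; ring
      rcases mul_eq_zero.1 h3 with h3 | h3
      · rcases mul_eq_zero.1 h3 with h3 | h3
        · have : u = a := by linear_combination h3
          subst this
          have h4 : gq u b c u u = (u - b) * (u - c) := by simp only [gq]; ring
          rw [h4]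
          exact mul_ne_zero (sub_ne_zero.2 hab) (sub_ne_zero.2 hac)
        · have : u = b := by linear_combination h3
          subst this
          have h4 : gq a u c u u = (u - a) * (u - c) := by simp only [gq]; ring
          rw [h4]
          exact mul_ne_zero (sub_ne_zero.2 hab.symm) (sub_ne_zero.2 hbc)
      · have : u = c := by linear_combination h3
        subst this
        have h4 : gq a b u u u = (u - a) * (u - b) := by simp only [gq]; ring
        rw [h4]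
        exact mul_ne_zero (sub_ne_zero.2 hac.symm) (sub_ne_zero.2 hbc.symm)
    have hcont : Continuous fun q : L × L => ‖gq a b c q.1 q.2‖ := by
      unfold gq
      fun_prop
    have h3 : 0 < ‖gq a b c u u‖ := norm_pos_iff.2 hd
    have h4 : ∀ᶠ q in 𝓝 (u, u), ‖gq a b c u u‖ / 2 < ‖gq a b c q.1 q.2‖ :=
      hcont.continuousAt.eventually (lt_mem_nhds (by show _ < ‖gq a b c u u‖; linarith))
    obtain ⟨δ₁, hδ₁, h5⟩ := Metric.eventually_nhds_iff.1 h4
    refine ⟨min δ₁ (‖gq a b c u u‖ / (2 * M)), by positivity, ?_⟩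
    intro x₁ y₁ x₂ y₂ h₁ h₂ hne hx₁ hx₂ k1 k2 k3 k4
    refine fin x₁ y₁ x₂ y₂ h₁ h₂ hne hx₁ hx₂ fun l _ hl => ?_
    have h6 : ‖gq a b c u u‖ / 2 < ‖gq a b c x₁ x₂‖ := by
      apply h5 (y := (x₁, x₂))
      rw [Prod.dist_eq]
      apply max_lt
      · rw [dist_eq_norm]
        exact lt_of_lt_of_le k1 (min_le_left _ _)
      · rw [dist_eq_norm]
        exact lt_of_lt_of_le k2 (min_le_left _ _)
    have h7 : ‖y₁ - y₂‖ < ‖gq a b c u u‖ / (2 * M) := lt_of_lt_of_le (hsub k3 k4) (min_le_right _ _)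
    rw [← hl, norm_mul] at h6
    by_contra hcon
    rw [not_le] at hcon
    have h8 : ‖l‖ * ‖y₁ - y₂‖ ≤ M * (‖gq a b c u u‖ / (2 * M)) :=
      mul_le_mul hcon.le h7.le (norm_nonneg _) hM0.le
    have h9 : M * (‖gq a b c u u‖ / (2 * M)) = ‖gq a b c u u‖ / 2 := by
      field_simp
    linarith
  · have hκ : 0 < ‖(2 : L) * v‖ := norm_pos_iff.2 (mul_ne_zero h2 hv)
    refine ⟨min ‖(2 : L) * v‖ (‖(2 : L) * v‖ / M), by positivity, ?_⟩
    intro x₁ y₁ x₂ y₂ h₁ h₂ hne hx₁ hx₂ k1 k2 k3 k4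
    refine fin x₁ y₁ x₂ y₂ h₁ h₂ hne hx₁ hx₂ fun l hl _ => ?_
    have h6 : ‖y₁ + y₂‖ = ‖(2 : L) * v‖ := by
      have e1 : y₁ + y₂ = 2 * v + ((y₁ - v) + (y₂ - v)) := by ring
      have h7 : ‖(y₁ - v) + (y₂ - v)‖ < ‖(2 : L) * v‖ :=
        lt_of_le_of_lt (IsUltrametricDist.norm_add_le_max _ _)
          (max_lt (lt_of_lt_of_le k3 (min_le_left _ _)) (lt_of_lt_of_le k4 (min_le_left _ _)))
      rw [e1, IsUltrametricDist.norm_add_eq_max_of_norm_ne_norm h7.ne']
      exact max_eq_left h7.le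
    have h7 : ‖x₁ - x₂‖ < ‖(2 : L) * v‖ / M := lt_of_lt_of_le (hsub k1 k2) (min_le_right _ _)
    rw [← hl, norm_mul] at h6
    by_contra hcon
    rw [not_le] at hcon
    have hl0 : 0 < ‖l‖ := by
      rw [norm_pos_iff]
      rintro rfl
      rw [norm_zero, zero_mul] at h6
      linarith
    have h8 : ‖l‖ * ‖x₁ - x₂‖ < M * (‖(2 : L) * v‖ / M) :=
      mul_lt_mul'' hcon h7 (norm_nonneg _) (norm_nonneg _)
    rw [mul_div_cancel₀ _ hM0.ne'] at h8
    linarith

/-- the coordinates -/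
def crd {L : Type} [Field L] {a b c : L} : (crv a b c).toAffine.Point → L × L
  | .zero => 0
  | .some x y _ => (x, y)

theorem t_E2 (h : S_E1) : S_E2 := by
  intro L _ _ _ _ _ a b c hab hbc hac r hr T hT
  have hr0 : 0 < r := lt_of_le_of_lt (le_max_of_le_left (norm_nonneg a)) hr
  obtain ⟨hadd, hneg, -⟩ := h L a b c hab hbc hac r hr
  by_cases h2 : ∃ P ∈ T, ∃ Q ∈ T, P ≠ Q ∧ Bg r P ∧ Bg r Q
  · obtain ⟨P, hP, Q, hQ, hPQ, h3, h4⟩ := h2
    refine ⟨P, hP, Q, hQ, hPQ, ?_⟩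
    rw [sub_eq_add_neg]
    exact hadd _ _ h3 (hneg _ h4)
  · push Not at h2
    -- the bounded points
    set T' : Set (crv a b c).toAffine.Point := {P ∈ T | ¬ Bg r P} with hT'
    have hinf : T'.Infinite := by
      intro hfin
      apply hT
      have h3 : (T \ T').Finite := by
        apply Set.Subsingleton.finite
        intro P hP Q hQ
        by_contra hne
        have hP' : Bg r P := by
          by_contra h4
          exact hP.2 ⟨hP.1, h4⟩
        have hQ' : Bg r Q := by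
          by_contra h4
          exact hQ.2 ⟨hQ.1, h4⟩
        exact h2 P hP.1 Q hQ.1 hne hP' hQ'
      have h4 : T = T' ∪ (T \ T') := by
        ext P
        constructor
        · intro hP
          by_cases h5 : P ∈ T'
          · exact Or.inl h5
          · exact Or.inr ⟨hP, h5⟩
        · rintro (h5 | h5)
          · exact h5.1
          · exact h5.1
      rw [h4]
      exact hfin.union h3
    have hform : ∀ P ∈ T', ∃ x y hn, P = .some x y hn ∧ ‖x‖ < r := by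
      rintro (_ | ⟨x, y, hn⟩) hP
      · exact absurd trivial hP.2
      · exact ⟨x, y, hn, rfl, not_le.1 hP.2⟩
    have hinj : Set.InjOn (crd (a := a) (b := b) (c := c)) T' := by
      intro P hP Q hQ hPQ
      obtain ⟨x, y, hn, rfl, -⟩ := hform P hP
      obtain ⟨x', y', hn', rfl, -⟩ := hform Q hQ
      simp only [crd, Prod.mk.injEq] at hPQ
      obtain ⟨rfl, rfl⟩ := hPQ
      rfl
    have hS := hinf.image hinj
    -- the bound
    have hbd : ∀ q ∈ crd '' T', ‖q.1‖ ≤ r ∧ ‖q.2‖ ≤ r ^ 3 + 1 ∧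
        q.2 ^ 2 = (q.1 - a) * (q.1 - b) * (q.1 - c) := by
      rintro _ ⟨P, hP, rfl⟩
      obtain ⟨x, y, hn, rfl, hx⟩ := hform P hP
      have e1 := (nonsing hab hbc hac).1 hn
      refine ⟨hx.le, ?_, e1⟩
      show ‖y‖ ≤ _
      have ha : ‖a‖ < r := lt_of_le_of_lt (le_max_left _ _) hr
      have hb : ‖b‖ < r := lt_of_le_of_lt ((le_max_left _ _).trans (le_max_right _ _)) hr
      have hc : ‖c‖ < r := lt_of_le_of_lt ((le_max_right _ _).trans (le_max_right _ _)) hr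
      have hu : ∀ {x y : L}, ‖x‖ < r → ‖y‖ < r → ‖x - y‖ ≤ r := fun {x y} h h' => by
        rw [sub_eq_add_neg]
        exact (lt_of_le_of_lt (IsUltrametricDist.norm_add_le_max _ _)
          (max_lt h (by rwa [norm_neg]))).le
      have e2 : ‖y‖ ^ 2 ≤ r ^ 3 := by
        rw [← norm_pow, e1, norm_mul, norm_mul]
        calc ‖x - a‖ * ‖x - b‖ * ‖x - c‖ ≤ r * r * r := by
              gcongr
              · exact hu hx ha
              · exact hu hx hb
              · exact hu hx hc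
          _ = r ^ 3 := by ring
      have h0 : 0 ≤ ‖y‖ := norm_nonneg y
      nlinarith [sq_nonneg (‖y‖ - 1)]
    have hK : IsCompact (Metric.closedBall (0 : L) r ×ˢ Metric.closedBall (0 : L) (r ^ 3 + 1)) :=
      (isCompact_closedBall _ _).prod (isCompact_closedBall _ _)
    obtain ⟨⟨u, v⟩, -, hacc⟩ := hS.exists_accPt_of_subset_isCompact hK (by
      intro q hq
      obtain ⟨h3, h4, -⟩ := hbd q hq
      exact ⟨by simpa using h3, by simpa using h4⟩)
    have huv : v ^ 2 = (u - a) * (u - b) * (u - c) := by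
      have hcl : IsClosed {q : L × L | q.2 ^ 2 = (q.1 - a) * (q.1 - b) * (q.1 - c)} :=
        isClosed_eq (by fun_prop) (by fun_prop)
      have h3 : (u, v) ∈ closure (crd '' T') := mem_closure_iff_clusterPt.2 (AccPt.clusterPt hacc)
      exact hcl.closure_subset_iff.2 (fun q hq => (hbd q hq).2.2) h3
    obtain ⟨δ, hδ, hnear⟩ := near hab hbc hac hr huv
    have hnh : Metric.ball (u, v) δ ∈ 𝓝 (u, v) := Metric.ball_mem_nhds _ hδ
    obtain ⟨q₁, ⟨hq₁, hq₁'⟩, hne₁⟩ := accPt_iff_nhds.1 hacc _ hnh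
    have hnh2 : Metric.ball (u, v) δ ∩ {q₁}ᶜ ∈ 𝓝 (u, v) :=
      inter_mem hnh (isOpen_compl_singleton.mem_nhds (fun h => hne₁ h.symm))
    obtain ⟨q₂, ⟨⟨hq₂, hq₂'⟩, hq₂''⟩, hne₂⟩ := accPt_iff_nhds.1 hacc _ hnh2
    obtain ⟨P, hP, rfl⟩ := hq₁'
    obtain ⟨Q, hQ, rfl⟩ := hq₂''
    obtain ⟨x, y, hn, rfl, hx⟩ := hform P hP
    obtain ⟨x', y', hn', rfl, hx'⟩ := hform Q hQ
    have hne : ¬ (x = x' ∧ y = y') := by
      rintro ⟨rfl, rfl⟩
      exact hq₂' rfl
    refine ⟨_, hP.1, _, hQ.1, ?_, ?_⟩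
    · intro h3
      apply hne
      simpa using h3
    · rw [Metric.mem_ball, Prod.dist_eq, max_lt_iff] at hq₁ hq₂
      refine hnear x y x' y' hn hn' hne hx hx' ?_ ?_ ?_ ?_
      · rw [← dist_eq_norm]; exact hq₁.1
      · rw [← dist_eq_norm]; exact hq₂.1
      · rw [← dist_eq_norm]; exact hq₁.2
      · rw [← dist_eq_norm]; exact hq₂.2

end Pool.Agent.Zk17.HT
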