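import Mathlib
import Pool.Agent.Zk12.HT.End

/-!
# Polynomials of odd degree: the branch point infinity is moved to 0
-/

set_option autoImplicit false
set_option linter.all false

open Polynomial

namespace Pool.Agent.Zk17.HT

theorem natDegree_reverse' {k : Type} [Field k] {p : k[X]} (h0 : p.coeff 0 ≠ 0) :
    p.reverse.natDegree = p.natDegree := by
  have htd : p.natTrailingDegree = 0 := by
    rw [natTrailingDegree_eq_zero]
    exact Or.inr h0
  rw [reverse_natDegree, htd, Nat.sub_zero]

theorem reverse_reverse' {k : Type} [Field k] {p : k[X]} (h0 : p.coeff 0 ≠ 0) :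
    p.reverse.reverse = p := by
  ext n
  rw [coeff_reverse, natDegree_reverse' h0, coeff_reverse, revAt_invol]

/-- the reverse of a squarefree polynomial which does not vanish at 0 is squarefree -/
theorem squarefree_reverse {k : Type} [Field k] {p : k[X]} (hp : Squarefree p)
    (h0 : p.coeff 0 ≠ 0) : Squarefree p.reverse := by
  intro q hq
  obtain ⟨h, hh⟩ := hq
  have hp0 : p ≠ 0 := by
    rintro rfl
    exact h0 (by simp)
  have h1 : p = q.reverse * q.reverse * h.reverse := by
    rw [← reverse_reverse' h0, hh, reverse_mul_of_domain, reverse_mul_of_domain]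
  have h2 : IsUnit q.reverse := hp _ ⟨_, h1⟩
  have h3 : q.coeff 0 ≠ 0 := by
    intro h4
    have h5 : p.reverse.coeff 0 = 0 := by
      rw [hh, mul_coeff_zero, mul_coeff_zero, h4]
      ring
    rw [coeff_zero_reverse, leadingCoeff_eq_zero] at h5
    exact hp0 h5
  have h6 : q.natDegree = 0 := by
    rw [← natDegree_reverse' h3]
    exact natDegree_eq_zero_of_isUnit h2
  have h7 : q ≠ 0 := by
    rintro rfl
    exact h3 (by simp)
  rw [Polynomial.isUnit_iff_degree_eq_zero, degree_eq_natDegree h7, h6]
  rfl

/-- the value of the reverse -/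
theorem aeval_reverse {k F : Type} [Field k] [Field F] [Algebra k F] (p : k[X]) {u : F}
    (hu : u ≠ 0) : aeval u⁻¹ p.reverse = aeval u p * (u⁻¹) ^ p.natDegree := by
  letI : Invertible u := invertibleOfNonzero hu
  have h := eval₂_reverse_mul_pow (algebraMap k F) u p
  rw [invOf_eq_inv] at h
  rw [aeval_def, aeval_def, ← h, mul_assoc, ← mul_pow, mul_inv_cancel₀ hu, one_pow, mul_one]

theorem odd : Pool.Agent.Zk12.HT.S_ODD := by
  intro k _ _ f hf hodd h3
  classical
  have hf0 : f ≠ 0 := by
    rintro rfl
    simp at h3
  obtain ⟨a, ha⟩ : ∃ a : k, f.eval a ≠ 0 := by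
    by_contra hne
    push Not at hne
    exact hf0 (Polynomial.funext fun r => by rw [hne r, eval_zero])
  have hcomp : (f.comp (X + C a)).coeff 0 ≠ 0 := by
    rw [coeff_zero_eq_eval_zero, eval_comp]
    simpa using ha
  have hdeg : (f.comp (X + C a)).natDegree = f.natDegree := by
    rw [natDegree_comp, natDegree_X_add_C, mul_one]
  have hsep : (f.comp (X + C a)).Separable := by
    have h1 : IsCoprime (f.comp (X + C a)) (f.derivative.comp (X + C a)) := by
      have h2 := IsCoprime.map (hf : IsCoprime f f.derivative) (Polynomial.compRingHom (X + C a))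
      simpa using h2
    show IsCoprime _ _
    rw [derivative_comp]
    simpa using h1
  have hsq : Squarefree (f.comp (X + C a)).reverse := squarefree_reverse hsep.squarefree hcomp
  have hRsep : (f.comp (X + C a)).reverse.Separable :=
    PerfectField.separable_iff_squarefree.2 hsq
  have hR0 : (f.comp (X + C a)).reverse.coeff 0 ≠ 0 := by
    rw [coeff_zero_reverse, Ne, leadingCoeff_eq_zero]
    intro h
    rw [h] at hcomp
    exact hcomp (by simp)
  have hRne : (f.comp (X + C a)).reverse ≠ 0 := by
    intro h
    rw [h] at hR0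
    exact hR0 (by simp)
  refine ⟨a, X * (f.comp (X + C a)).reverse, ha, ?_, ?_, ?_, ?_, ?_⟩
  · refine Separable.mul separable_X hRsep ?_
    rw [irreducible_X.coprime_iff_not_dvd, X_dvd_iff]
    exact hR0
  · rw [natDegree_X_mul hRne, natDegree_reverse' hcomp, hdeg]
  · simp
  · intro z hz
    have h1 := aeval_reverse (F := k) (f.comp (X + C a)) (inv_ne_zero hz)
    rw [inv_inv, coe_aeval_eq_eval, coe_aeval_eq_eval, eval_comp] at h1
    rw [eval_mul, eval_X, h1]
    have h2 : (X + C a : k[X]).eval z⁻¹ = a + z⁻¹ := by simp [add_comm]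
    rw [h2]
    constructor
    · intro h
      rcases mul_eq_zero.1 h with h | h
      · exact absurd h hz
      rcases mul_eq_zero.1 h with h | h
      · exact h
      · exact absurd h (pow_ne_zero _ hz)
    · intro h
      rw [h]
      ring
  · intro F _ _ x hx
    have hu : x - algebraMap k F a ≠ 0 := sub_ne_zero.2 hx
    rw [map_mul, aeval_X, aeval_reverse _ hu, hdeg, aeval_comp]
    have h2 : aeval (x - algebraMap k F a) (X + C a : k[X]) = x := by simp
    rw [h2]
    ring


end Pool.Agent.Zk17.HT
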