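import Mathlib
import Pool.Agent.Zk80.HT.ObStm

/-!
# Approximation of an obstruction at an algebraic point by generic points (compactness)
-/

set_option autoImplicit false
set_option linter.all false


open Polynomial Filter Topology

namespace Pool.Agent.Zk17.HT

open Pool.Agent.Zk80.HT

section cont

variable {n : ℕ} {L : Type} [NontriviallyNormedField L]

theorem evt_cont (J : ℚ →+* L) (g : A n) : Continuous fun τ : Fin n → L => evt J τ g := by
  have h : (fun τ : Fin n → L => evt J τ g) =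
      fun τ => MvPolynomial.eval τ (MvPolynomial.map J g) := by
    funext τ
    rw [MvPolynomial.eval_map]
    rfl
  rw [h]
  exact MvPolynomial.continuous_eval _

theorem ev_eq (J : ℚ →+* L) (P : (A n)[X]) (τ : Fin n → L) (θ : L) :
    ev J τ θ P = ∑ i ∈ Finset.range (P.natDegree + 1), evt J τ (P.coeff i) * θ ^ i := by
  show Polynomial.eval₂ (evt J τ) θ P = _
  rw [Polynomial.eval₂_eq_sum_range]

theorem ev_cont (J : ℚ →+* L) (P : (A n)[X]) :
    Continuous fun q : (Fin n → L) × L => ev J q.1 q.2 P := by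
  have h : (fun q : (Fin n → L) × L => ev J q.1 q.2 P) = fun q =>
      ∑ i ∈ Finset.range (P.natDegree + 1), evt J q.1 (P.coeff i) * q.2 ^ i := by
    funext q
    exact ev_eq J P q.1 q.2
  rw [h]
  apply continuous_finset_sum
  intro i _
  exact ((evt_cont J (P.coeff i)).comp continuous_fst).mul (continuous_snd.pow i)

theorem ev_map {F : Type} [Field F] (j : F →+* L) (i : ℚ →+* F) (t : Fin n → F) (θ : F) :
    j.comp (ev i t θ) = ev (j.comp i) (fun l => j (t l)) (j θ) := by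
  apply Polynomial.ringHom_ext'
  · apply MvPolynomial.ringHom_ext
    · intro r
      simp [ev, evt]
    · intro l
      simp [ev, evt]
  · simp [ev]

/-- the value of `f` at `(τ, θ, x)` -/
noncomputable def FV (J : ℚ →+* L) (f : (A n)[X][X]) (q : (Fin n → L) × L) (x : L) : L :=
  ∑ i ∈ Finset.range (f.natDegree + 1), ev J q.1 q.2 (f.coeff i) * x ^ i

theorem FV_eq (J : ℚ →+* L) (f : (A n)[X][X]) (q : (Fin n → L) × L) (x : L) :
    (f.map (ev J q.1 q.2)).eval x = FV J f q x := by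
  rw [Polynomial.eval_map, Polynomial.eval₂_eq_sum_range]
  rfl

theorem FV_cont (J : ℚ →+* L) (f : (A n)[X][X]) :
    Continuous fun q : ((Fin n → L) × L) × L => FV J f q.1 q.2 := by
  unfold FV
  apply continuous_finset_sum
  intro i _
  exact ((ev_cont J (f.coeff i)).comp continuous_fst).mul (continuous_snd.pow i)

/-- roots are bounded -/
theorem root_bound (J : ℚ →+* L) (f : (A n)[X][X]) (hf : f.Monic) (q : (Fin n → L) × L)
    (x : L) (h : FV J f q x = 0) (M : ℝ)
    (hM : ∑ i ∈ Finset.range f.natDegree, ‖ev J q.1 q.2 (f.coeff i)‖ ≤ M) (hM1 : 1 ≤ M) :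
    ‖x‖ ≤ M := by
  unfold FV at h
  rw [Finset.sum_range_succ, hf.coeff_natDegree, map_one, one_mul] at h
  by_contra hx
  push Not at hx
  have hx1 : 1 < ‖x‖ := lt_of_le_of_lt hM1 hx
  have h1 : x ^ f.natDegree =
      -∑ i ∈ Finset.range f.natDegree, ev J q.1 q.2 (f.coeff i) * x ^ i := by
    linear_combination h
  rcases Nat.eq_zero_or_pos f.natDegree with h0 | h0
  · rw [h0] at h1
    simp at h1
  have h2 : ‖x‖ ^ f.natDegree ≤ M * ‖x‖ ^ (f.natDegree - 1) := by
    rw [← norm_pow, h1, norm_neg]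
    refine (norm_sum_le _ _).trans ?_
    refine le_trans ?_ (mul_le_mul_of_nonneg_right hM (by positivity))
    rw [Finset.sum_mul]
    apply Finset.sum_le_sum
    intro i hi
    rw [norm_mul, norm_pow]
    apply mul_le_mul_of_nonneg_left _ (norm_nonneg _)
    apply pow_le_pow_right₀ hx1.le
    have := Finset.mem_range.1 hi
    omega
  have h3 : ‖x‖ ^ f.natDegree = ‖x‖ * ‖x‖ ^ (f.natDegree - 1) := by
    rw [← pow_succ']
    congr 1
    omega
  rw [h3] at h2
  have h4 : 0 < ‖x‖ ^ (f.natDegree - 1) := by positivity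
  have h5 := le_of_mul_le_mul_right h2 h4
  linarith

attribute [irreducible] FV

theorem FV_tendsto (J : ℚ →+* L) (f : (A n)[X][X]) (q : ℕ → (Fin n → L) × L)
    (X : ℕ → L) (q₀ : (Fin n → L) × L) (X₀ : L)
    (h : Tendsto (fun j => (q j, X j)) atTop (𝓝 (q₀, X₀))) :
    Tendsto (fun j => FV J f (q j) (X j)) atTop (𝓝 (FV J f q₀ X₀)) := by
  have h2 : Tendsto (fun q : ((Fin n → L) × L) × L => FV J f q.1 q.2) (𝓝 (q₀, X₀))
      (𝓝 (FV J f q₀ X₀)) := (FV_cont J f).tendsto (q₀, X₀)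
  exact h2.comp h

end cont

attribute [local irreducible] Pool.Agent.Zk80.HT.ev Pool.Agent.Zk80.HT.evt

theorem appk (h : S_NEARK) : S_APPK := by
  intro n F _ _ m f a θa hm hf hroot hder β P P' R Q hR hQ hdvd l hl
  obtain ⟨c₀, hc₀, H⟩ := h n F m a θa hm hroot hder P P' R Q hR hQ hdvd l hl
  refine ⟨c₀, hc₀, ?_⟩
  intro L _ _ j hz
  by_contra hcon
  push Not at hcon
  have hε : ∀ k : ℕ, (0 : ℝ) < 1 / ((k : ℝ) + 2) := fun k => by positivity
  choose τ ρ u w hτ hρr hτa hρa hu hw hR' using fun k : ℕ => H L j (1 / ((k : ℝ) + 2)) (hε k)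
  choose z hzz using fun k => hcon (τ k) (ρ k) (hτ k) (hρr k)
  set J : ℚ →+* L := j.comp (Rat.castHom F) with hJ
  set q : ℕ → (Fin n → L) × L := fun k => (τ k, ρ k) with hq
  set q₀ : (Fin n → L) × L := (fun i => j (a i), j θa) with hq₀
  set c : L := j c₀ with hc
  have hc0 : c ≠ 0 := (_root_.map_ne_zero j).2 hc₀
  have hlim0 : Tendsto (fun k : ℕ => 1 / ((k : ℝ) + 2)) atTop (𝓝 0) := by
    have h1 := tendsto_one_div_add_atTop_nhds_zero_nat (𝕜 := ℝ)
    have h2 := (tendsto_add_atTop_iff_nat 1).2 h1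
    refine h2.congr ?_
    intro k
    push_cast
    congr 1
    ring
  have hτlim : Tendsto τ atTop (𝓝 fun i => j (a i)) := by
    rw [tendsto_pi_nhds]
    intro i
    rw [tendsto_iff_norm_sub_tendsto_zero]
    exact squeeze_zero (fun _ => norm_nonneg _) (fun k => (hτa k i).le) hlim0
  have hρlim : Tendsto ρ atTop (𝓝 (j θa)) := by
    rw [tendsto_iff_norm_sub_tendsto_zero]
    exact squeeze_zero (fun _ => norm_nonneg _) (fun k => (hρa k).le) hlim0
  have hqlim : Tendsto q atTop (𝓝 q₀) := hτlim.prodMk_nhds hρlim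
  have hulim : Tendsto u atTop (𝓝 1) := by
    rw [tendsto_iff_norm_sub_tendsto_zero]
    exact squeeze_zero (fun _ => norm_nonneg _) (fun k => (hu k).le) hlim0
  have hunorm : ∀ k, 1 / 2 ≤ ‖u k‖ := by
    intro k
    have h1 : (1 : ℝ) / ((k : ℝ) + 2) ≤ 1 / 2 := by
      apply one_div_le_one_div_of_le <;> [norm_num; (have : (0:ℝ) ≤ k := Nat.cast_nonneg k; linarith)]
    have h2 := hu k
    have h3 : ‖(1 : L)‖ ≤ ‖u k‖ + ‖u k - 1‖ := by
      have : (1 : L) = u k - (u k - 1) := by ring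
      calc ‖(1 : L)‖ = ‖u k - (u k - 1)‖ := by rw [← this]
        _ ≤ _ := norm_sub_le _ _
    rw [norm_one] at h3
    linarith
  -- the value of `β`
  set b : ℕ → L := fun k => ev J (τ k) (ρ k) β with hb
  set b₀ : L := ev J (fun i => j (a i)) (j θa) β with hb₀
  have hblim : Tendsto b atTop (𝓝 b₀) := ((ev_cont J β).tendsto q₀).comp hqlim
  -- the points
  set y : ℕ → L := fun k => w k * z k with hy
  set X : ℕ → L := fun k => b k + c * u k * y k ^ l with hX
  have hroot' : ∀ k, FV J f (q k) (X k) = 0 := by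
    intro k
    have h1 := hzz k
    rw [hR' k] at h1
    have h2 : ev J (τ k) (ρ k) β + c * u k * w k ^ l * z k ^ l = X k := by
      simp only [hX, hy, hb]
      ring
    rw [h2] at h1
    rw [← FV_eq]
    exact h1
  -- bounded coefficients
  obtain ⟨M, hM1, hM⟩ : ∃ M : ℝ, 1 ≤ M ∧ ∀ k,
      ∑ i ∈ Finset.range f.natDegree, ‖ev J (q k).1 (q k).2 (f.coeff i)‖ ≤ M := by
    have h1 : Tendsto (fun k => ∑ i ∈ Finset.range f.natDegree,
        ‖ev J (q k).1 (q k).2 (f.coeff i)‖) atTop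
        (𝓝 (∑ i ∈ Finset.range f.natDegree, ‖ev J q₀.1 q₀.2 (f.coeff i)‖)) := by
      apply tendsto_finset_sum
      intro i _
      exact (((ev_cont J (f.coeff i)).tendsto q₀).comp hqlim).norm
    obtain ⟨M, hM⟩ := h1.bddAbove_range
    refine ⟨max 1 M, le_max_left _ _, fun k => ?_⟩
    exact (hM ⟨k, rfl⟩).trans (le_max_right _ _)
  have hXb : ∀ k, ‖X k‖ ≤ M := fun k => root_bound J f hf (q k) (X k) (hroot' k) M (hM k) hM1
  obtain ⟨Mb, hMb0, hMb⟩ : ∃ Mb : ℝ, 0 ≤ Mb ∧ ∀ k, ‖b k‖ ≤ Mb := by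
    obtain ⟨M', hM'⟩ := hblim.norm.bddAbove_range
    exact ⟨max 0 M', le_max_left _ _, fun k => (hM' ⟨k, rfl⟩).trans (le_max_right _ _)⟩
  set B : ℝ := 2 * (M + Mb) / ‖c‖ with hB
  have hyb : ∀ k, ‖y k‖ ≤ max 1 B := by
    intro k
    have h1 : c * u k * y k ^ l = X k - b k := by
      simp only [hX]
      ring
    have h2 : ‖c‖ * ‖u k‖ * ‖y k‖ ^ l ≤ M + Mb := by
      rw [← norm_pow, ← norm_mul, ← norm_mul, h1]
      exact (norm_sub_le _ _).trans (add_le_add (hXb k) (hMb k))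
    have hcp : 0 < ‖c‖ := norm_pos_iff.2 hc0
    have h3 : ‖y k‖ ^ l ≤ B := by
      rw [hB, le_div_iff₀ hcp]
      have h4 : ‖c‖ * (1 / 2) * ‖y k‖ ^ l ≤ ‖c‖ * ‖u k‖ * ‖y k‖ ^ l := by
        apply mul_le_mul_of_nonneg_right _ (by positivity)
        exact mul_le_mul_of_nonneg_left (hunorm k) hcp.le
      nlinarith
    rcases le_or_gt ‖y k‖ 1 with h5 | h5
    · exact h5.trans (le_max_left _ _)
    · refine le_trans ?_ (h3.trans (le_max_right _ _))
      exact le_self_pow₀ h5.le (by omega)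
  obtain ⟨y₀, _, φ, hφ, hφlim⟩ := (isCompact_closedBall (0 : L) (max 1 B)).tendsto_subseq
    (x := y) (fun k => by simpa using hyb k)
  have hfin : Tendsto (fun k => FV J f (q (φ k)) (X (φ k))) atTop
      (𝓝 (FV J f q₀ (b₀ + c * 1 * y₀ ^ l))) := by
    have h1 : Tendsto (fun k => (q (φ k), X (φ k))) atTop
        (𝓝 (q₀, b₀ + c * 1 * y₀ ^ l)) := by
      apply (hqlim.comp hφ.tendsto_atTop).prodMk_nhds
      apply Tendsto.add (hblim.comp hφ.tendsto_atTop)
      apply Tendsto.mul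
      · exact (hulim.comp hφ.tendsto_atTop).const_mul c
      · exact hφlim.pow l
    exact FV_tendsto J f _ _ _ _ h1
  have hzero : FV J f q₀ (b₀ + c * 1 * y₀ ^ l) = 0 := by
    refine tendsto_nhds_unique hfin ?_
    simp only [hroot']
    exact tendsto_const_nhds
  apply hz y₀
  rw [mul_one] at hzero
  have h7 : j (ev (Rat.castHom F) (fun i => (a i : F)) θa β) = b₀ := by
    rw [hb₀, hJ]
    have h8 := ev_map j (Rat.castHom F) (fun i => (a i : F)) θa
    have h9 := congrArg (fun g : (A n)[X] →+* L => g β) h8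
    exact h9
  rw [h7, ev_map]
  have h10 := FV_eq J f q₀ (b₀ + c * y₀ ^ l)
  rw [hzero] at h10
  exact h10

end Pool.Agent.Zk17.HT
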