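import Mathlib
import Pool.Agent.Zk12.HT.End

/-!
# Project HT: invariance of `BSC` under affine changes of the coordinate `x`
-/

set_option autoImplicit false

open Polynomial

namespace Pool.Agent.Zk17.HT

open Pool.Agent.TH954 Pool.Agent.Zk12.HT

theorem bsc_aff {k : Type} [Field k] (f : k[X]) (d u v : k) (hu : u ≠ 0)
    (h : BSC (f.comp (C u * X + C v)) d) : BSC f d := by
  intro F Ω B _ _ _ _ _ _ _ _ _ _ x y hx hF hxy s
  set x' : F := algebraMap k F u⁻¹ * (x - algebraMap k F v) with hx'
  have hu' : algebraMap k F u ≠ 0 := by simpa using hu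
  have hxx : algebraMap k F u * x' + algebraMap k F v = x := by
    rw [hx', map_inv₀]
    field_simp
    ring
  have hmem : x' ∈ IntermediateField.adjoin k {x} := by
    rw [hx']
    exact mul_mem (IntermediateField.algebraMap_mem _ _)
      (sub_mem (IntermediateField.subset_adjoin _ _ (Set.mem_singleton x))
        (IntermediateField.algebraMap_mem _ _))
  have hmem' : x ∈ IntermediateField.adjoin k {x'} := by
    have h1 : algebraMap k F u * x' + algebraMap k F v ∈ IntermediateField.adjoin k {x'} :=
      add_mem (mul_mem (IntermediateField.algebraMap_mem _ _)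
        (IntermediateField.subset_adjoin _ _ (Set.mem_singleton x')))
        (IntermediateField.algebraMap_mem _ _)
    rwa [hxx] at h1
  have hadj : IntermediateField.adjoin k {x'} = IntermediateField.adjoin k {x} :=
    le_antisymm (IntermediateField.adjoin_le_iff.2 (Set.singleton_subset_iff.2 hmem))
      (IntermediateField.adjoin_le_iff.2 (Set.singleton_subset_iff.2 hmem'))
  have htr : Transcendental k x' := by
    intro halg
    apply hx
    rw [← hxx]
    exact ((isAlgebraic_algebraMap u).mul halg).add (isAlgebraic_algebraMap v)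
  have hF' : Algebra.IsAlgebraic (IntermediateField.adjoin k {x'}) F := by
    rw [hadj]
    exact hF
  have hev : aeval x' (f.comp (C u * X + C v)) = aeval x f := by
    rw [aeval_comp]
    simp only [map_add, map_mul, aeval_C, aeval_X]
    rw [hxx]
  obtain ⟨O, h1, h2, h3⟩ := h F Ω B x' y htr hF' (by rw [hev]; exact hxy) s
  refine ⟨O, h1, h2, ?_⟩
  have hk := h1.2.1
  have hval : O.valuation (algebraMap k F u) = 1 := by
    have h4 : O.valuation (algebraMap k F u) ≤ 1 := (O.valuation_le_one_iff _).2 (hk u)
    have h5 : O.valuation (algebraMap k F u⁻¹) ≤ 1 := (O.valuation_le_one_iff _).2 (hk u⁻¹)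
    have h6 : O.valuation (algebraMap k F u) * O.valuation (algebraMap k F u⁻¹) = 1 := by
      rw [← map_mul, ← map_mul, mul_inv_cancel₀ hu, map_one, map_one]
    refine le_antisymm h4 ?_
    rw [← h6]
    exact mul_le_of_le_one_right' h5
  rcases h3 with ⟨e, he, hm⟩ | ⟨hodd, hm⟩
  · left
    refine ⟨u * e + v, by simpa [eval_comp] using he, ?_⟩
    have e1 : x - algebraMap k F (u * e + v) = algebraMap k F u * (x' - algebraMap k F e) := by
      rw [← hxx]
      simp only [map_add, map_mul]
      ring
    rw [e1]
    rw [ValuationSubring.mem_nonunits_iff] at hm ⊢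
    rw [map_mul, hval, one_mul]
    exact hm
  · right
    refine ⟨by rwa [natDegree_comp, natDegree_linear hu, mul_one] at hodd, ?_⟩
    rw [ValuationSubring.mem_nonunits_iff] at hm ⊢
    have hx0' : x' ≠ 0 := by
      intro h0
      rw [h0] at htr
      exact htr isAlgebraic_zero
    have hx0 : x ≠ 0 := by
      intro h0
      rw [h0] at hx
      exact hx isAlgebraic_zero
    have h7 : 1 < O.valuation x' := by
      rw [map_inv₀] at hm
      exact (inv_lt_one₀ (zero_lt_iff.2 ((O.valuation.ne_zero_iff).2 hx0'))).1 hm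
    have h8 : O.valuation x = O.valuation x' := by
      rw [← hxx]
      have h9 : O.valuation (algebraMap k F u * x') = O.valuation x' := by
        rw [map_mul, hval, one_mul]
      rw [Valuation.map_add_eq_of_lt_left, h9]
      rw [h9]
      exact lt_of_le_of_lt ((O.valuation_le_one_iff _).2 (hk v)) h7
    rw [map_inv₀, h8]
    rw [map_inv₀] at hm
    exact hm

theorem bsc_mul {k : Type} [Field k] (f : k[X]) (c d : k) (hc : c ≠ 0) (h : BSC f d) :
    BSC (C c * f) (c * d) := by
  intro F Ω B _ _ _ _ _ _ _ _ _ _ x y hx hF hxy s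
  have hc' : algebraMap k F c ≠ 0 := by simpa using hc
  have h0 : algebraMap k F d * y ^ 2 = aeval x f := by
    have h1 : algebraMap k F c * (algebraMap k F d * y ^ 2) = algebraMap k F c * aeval x f := by
      rw [← mul_assoc, ← map_mul, hxy, map_mul, aeval_C]
    exact mul_left_cancel₀ hc' h1
  obtain ⟨O, h1, h2, h3⟩ := h F Ω B x y hx hF h0 s
  refine ⟨O, h1, h2, ?_⟩
  rcases h3 with ⟨e, he, hm⟩ | ⟨hodd, hm⟩
  · left
    exact ⟨e, by rw [eval_mul, he, mul_zero], hm⟩
  · right
    exact ⟨by rwa [natDegree_C_mul hc], hm⟩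

/-- `y → w y`: the twists by `d` and by `w² d` are the same curve -/
theorem bsc_sq {k : Type} [Field k] (f : k[X]) (d w : k) (h : BSC f d) :
    BSC f (w ^ 2 * d) := by
  intro F Ω B _ _ _ _ _ _ _ _ _ _ x y hx hF hxy s
  refine h F Ω B x (algebraMap k F w * y) hx hF ?_ s
  rw [← hxy]
  simp only [map_mul, map_pow]
  ring

end Pool.Agent.Zk17.HT
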