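import Mathlib
import Pool.Agent.Zk94.HT.EStm

/-!
# Project HT, part `S_ELL`: the subparts E2 and E3
-/

set_option autoImplicit false
set_option linter.all false

namespace Pool.Agent.Zk17.HT

open Pool.Agent.Zk94.HT WeierstrassCurve

section field

variable {L : Type} [Field L] {a b c : L}

theorem crv_disc : (crv a b c).Δ = 16 * ((a - b) * (b - c) * (a - c)) ^ 2 := by
  simp only [crv, WeierstrassCurve.Δ, WeierstrassCurve.b₂, WeierstrassCurve.b₄, WeierstrassCurve.b₆,
    WeierstrassCurve.b₈]
  ring

theorem eqn {x y : L} : (crv a b c).toAffine.Equation x y ↔ y ^ 2 = (x - a) * (x - b) * (x - c) := by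
  rw [Affine.equation_iff]
  simp only [crv]
  constructor
  · intro h; linear_combination h
  · intro h; linear_combination h

theorem nonsing [CharZero L] (hab : a ≠ b) (hbc : b ≠ c) (hac : a ≠ c) {x y : L} :
    (crv a b c).toAffine.Nonsingular x y ↔ y ^ 2 = (x - a) * (x - b) * (x - c) := by
  rw [← eqn]
  refine (Affine.equation_iff_nonsingular_of_Δ_ne_zero ?_).symm
  rw [crv_disc]
  have h1 := sub_ne_zero.2 hab
  have h2 := sub_ne_zero.2 hbc
  have h3 := sub_ne_zero.2 hac
  have h4 : (16 : L) ≠ 0 := by norm_num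
  exact mul_ne_zero h4 (pow_ne_zero 2 (mul_ne_zero (mul_ne_zero h1 h2) h3))

theorem neg_Y (x y : L) : (crv a b c).toAffine.negY x y = -y := by
  simp [Affine.negY, crv]

theorem add_X (x x' l : L) : (crv a b c).toAffine.addX x x' l = l ^ 2 + (a + b + c) - x - x' := by
  simp only [Affine.addX, crv]; ring

theorem add_Y (x x' y l : L) : (crv a b c).toAffine.addY x x' y l =
    -(l * (l ^ 2 + (a + b + c) - x - x' - x) + y) := by
  rw [Affine.addY, neg_Y, Affine.negAddY, add_X]

end field

/-- one step of the halving -/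
theorem half {L : Type} [Field L] [CharZero L] [DecidableEq L] {a b c : L} (hab : a ≠ b) (hbc : b ≠ c)
    (hac : a ≠ c) {X X' α β γ e : L} (he : e ^ 2 = 1) (hα : α ^ 2 = X - a) (hβ : β ^ 2 = X - b)
    (hγ : γ ^ 2 = X - c) (hX : X' = X + α * β + β * γ + γ * α)
    (h : (crv a b c).toAffine.Nonsingular X (e * (α * β * γ)))
    (h' : (crv a b c).toAffine.Nonsingular X' (e * ((α + β) * (β + γ) * (γ + α)))) :
    (Affine.Point.some _ _ h' + Affine.Point.some _ _ h' : (crv a b c).toAffine.Point) =
      Affine.Point.some _ _ h := by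
  have he0 : e ≠ 0 := by
    rintro rfl
    simp at he
  have h1 : α + β ≠ 0 := by
    intro h0
    apply hab
    have : α = -β := by linear_combination h0
    rw [this] at hα
    linear_combination hα - hβ
  have h2 : β + γ ≠ 0 := by
    intro h0
    apply hbc
    have : β = -γ := by linear_combination h0
    rw [this] at hβ
    linear_combination hβ - hγ
  have h3 : γ + α ≠ 0 := by
    intro h0
    apply hac
    have : α = -γ := by linear_combination h0
    rw [this] at hα
    linear_combination hα - hγ
  have hP : e * ((α + β) * (β + γ) * (γ + α)) ≠ 0 :=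
    mul_ne_zero he0 (mul_ne_zero (mul_ne_zero h1 h2) h3)
  have hY : e * ((α + β) * (β + γ) * (γ + α)) ≠ (crv a b c).toAffine.negY X'
      (e * ((α + β) * (β + γ) * (γ + α))) := by
    rw [neg_Y]
    intro h0
    apply hP
    have h4 : (2 : L) * (e * ((α + β) * (β + γ) * (γ + α))) = 0 := by linear_combination h0
    exact (mul_eq_zero.1 h4).resolve_left two_ne_zero
  rw [Affine.Point.add_self_of_Y_ne hY]
  have hs : (crv a b c).toAffine.slope X' X' (e * ((α + β) * (β + γ) * (γ + α)))
      (e * ((α + β) * (β + γ) * (γ + α))) = e * (α + β + γ) := by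
    rw [Affine.slope_of_Y_ne rfl hY, neg_Y]
    have h5 : e * ((α + β) * (β + γ) * (γ + α)) - -(e * ((α + β) * (β + γ) * (γ + α))) ≠ 0 := by
      intro h0
      apply hP
      have h4 : (2 : L) * (e * ((α + β) * (β + γ) * (γ + α))) = 0 := by linear_combination h0
      exact (mul_eq_zero.1 h4).resolve_left two_ne_zero
    rw [div_eq_iff h5]
    simp only [crv]
    have ha : a = X - α ^ 2 := by linear_combination hα
    have hb : b = X - β ^ 2 := by linear_combination hβ
    have hc : c = X - γ ^ 2 := by linear_combination hγ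
    rw [hX, ha, hb, hc]
    linear_combination (-2 * (α + β + γ) * ((α + β) * (β + γ) * (γ + α))) * he
  have e1 : (crv a b c).toAffine.addX X' X' (e * (α + β + γ)) = X := by
    rw [add_X]
    have ha : a = X - α ^ 2 := by linear_combination hα
    have hb : b = X - β ^ 2 := by linear_combination hβ
    have hc : c = X - γ ^ 2 := by linear_combination hγ
    rw [hX, ha, hb, hc]
    linear_combination ((α + β + γ) ^ 2) * he
  have e2 : (crv a b c).toAffine.addY X' X' (e * ((α + β) * (β + γ) * (γ + α))) (e * (α + β + γ)) =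
      e * (α * β * γ) := by
    rw [add_Y]
    have ha : a = X - α ^ 2 := by linear_combination hα
    have hb : b = X - β ^ 2 := by linear_combination hβ
    have hc : c = X - γ ^ 2 := by linear_combination hγ
    rw [hX, ha, hb, hc]
    linear_combination (-(e * (α + β + γ) * (α + β + γ) ^ 2)) * he
  simp only [hs]
  congr 1

theorem t_E3 : S_E3 := by
  intro L _ _ _ a b c hab hbc hac X α β γ hh
  -- the second coordinates
  have key : ∀ j, ∀ e : L, e ^ 2 = 1 → ∃ e' : L, e' ^ 2 = 1 ∧
      e * ((α j + β j) * (β j + γ j) * (γ j + α j)) = e' * (α (j + 1) * β (j + 1) * γ (j + 1)) := by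
    intro j e he
    obtain ⟨h1, h2, h3, h4⟩ := hh j
    obtain ⟨g1, g2, g3, -⟩ := hh (j + 1)
    have h5 : (e * ((α j + β j) * (β j + γ j) * (γ j + α j))) ^ 2 =
        (α (j + 1) * β (j + 1) * γ (j + 1)) ^ 2 := by
      rw [mul_pow, he, one_mul, mul_pow (α (j + 1) * β (j + 1)), mul_pow (α (j + 1)), g1, g2, g3, h4]
      have ha : a = X j - α j ^ 2 := by linear_combination h1
      have hb : b = X j - β j ^ 2 := by linear_combination h2
      have hc : c = X j - γ j ^ 2 := by linear_combination h3
      rw [ha, hb, hc]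
      ring
    rcases sq_eq_sq_iff_eq_or_eq_neg.1 h5 with h | h
    · exact ⟨1, one_pow 2, by rw [h, one_mul]⟩
    · exact ⟨-1, by norm_num, by rw [h]; ring⟩
  choose! nx hnx1 hnx2 using key
  let E : ℕ → L := fun j => Nat.rec 1 (fun j e => nx j e) j
  have hE0 : ∀ j, E j ^ 2 = 1 := by
    intro j
    induction j with
    | zero => exact one_pow 2
    | succ j ih => exact hnx1 j (E j) ih
  have hEs : ∀ j, E j * ((α j + β j) * (β j + γ j) * (γ j + α j)) =
      E (j + 1) * (α (j + 1) * β (j + 1) * γ (j + 1)) := fun j => hnx2 j (E j) (hE0 j)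
  have hns : ∀ j, (crv a b c).toAffine.Nonsingular (X j) (E j * (α j * β j * γ j)) := by
    intro j
    rw [nonsing hab hbc hac, mul_pow, hE0, one_mul, mul_pow, mul_pow, (hh j).1, (hh j).2.1, (hh j).2.2.1]
  refine ⟨fun j => .some (X j) (E j * (α j * β j * γ j)) (hns j), fun j => ?_, fun j => ⟨_, hns j, rfl⟩⟩
  have h' : (crv a b c).toAffine.Nonsingular (X (j + 1))
      (E j * ((α j + β j) * (β j + γ j) * (γ j + α j))) := by
    rw [hEs]
    exact hns (j + 1)
  have h6 := half hab hbc hac (hE0 j) (hh j).1 (hh j).2.1 (hh j).2.2.1 (hh j).2.2.2 (hns j) h'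
  have h7 : (Affine.Point.some _ _ (hns (j + 1)) : (crv a b c).toAffine.Point) =
      Affine.Point.some _ _ h' := by
    congr 1
    exact (hEs j).symm
  simp only
  rw [h7]
  exact h6

end Pool.Agent.Zk17.HT
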